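import Mathlib
import Pool.Agent.H.MP_dd1c2e_lc.Defs

/-!
# Randomized and quantum communication complexity of a function: the definitions of the final statement

Deterministic protocols (`DProt`) and the states reachable by exchanging qubits (`Reach`) are defined in `Defs`.
-/

set_option autoImplicit false

namespace Pool.Agent.H.MP_dd1c2e_lc.LX

open Finset Pool.Agent.H.MP_dd1c2e_lc

/-- `F` is computed with error at most `1/3` on every input by a randomized protocol with a public random source that
exchanges at most `k` bits: `R_{1/3}(F) ≤ k`. The protocol is a finite probability distribution `w` (with arbitrary real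
probabilities; in particular, any number of public unbiased coins) on deterministic protocols `P i` that exchange at most `k`
bits in the worst case. -/
def RGen {X Y : Type} (F : X → Y → Bool) (k : ℕ) : Prop :=
  ∃ (ι : Type) (_ : Fintype ι) (w : ι → ℝ) (P : ι → DProt X Y), (∀ i, 0 ≤ w i) ∧ ∑ i, w i = 1 ∧
    (∀ i, (P i).depth ≤ k) ∧ ∀ x y, 2 / 3 ≤ ∑ i, if (P i).run x y = F x y then w i else 0

/-- `F` is computed with error at most `1/3` on every input by a quantum protocol with prior entanglement in which `q` qubits
are exchanged, and both parties output `F x y`: `Q*_{1/3}(F) ≤ q`. Alice and Bob prepare a joint state `ψ x y ∈ ℂ^A ⊗ ℂ^B` by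
exchanging `q` qubits (`Reach`). Then Alice applies an isometry `V x : ℂ^A → ℂ^A' ⊗ ℂ^2` to her register and measures the
qubit, and Bob applies an isometry `W y : ℂ^B → ℂ^B' ⊗ ℂ^2` to his register and measures the qubit. With probability at least
`2/3` both outcomes are `F x y`. -/
def QBoth {X Y : Type} (F : X → Y → Bool) (q : ℕ) : Prop :=
  ∃ (A : Type) (_ : Fintype A) (B : Type) (_ : Fintype B) (ψ : X → Y → A → B → ℂ), Reach X Y q A B ψ ∧
    ∃ (A' : Type) (_ : Fintype A') (V : X → A' × Bool → A → ℂ) (B' : Type) (_ : Fintype B')
      (W : Y → B' × Bool → B → ℂ), (∀ x, IsIsometry (V x)) ∧ (∀ y, IsIsometry (W y)) ∧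
      ∀ x y, 2 / 3 ≤ ∑ a', ∑ b', ‖∑ a, ∑ b, V x (a', F x y) a * W y (b', F x y) b * ψ x y a b‖ ^ 2

end Pool.Agent.H.MP_dd1c2e_lc.LX
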