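import Mathlib
import Pool.Agent.H.MP_dd1c2e_lc.lx.Def
import Pool.Agent.H.MP_dd1c2e_lc.alt.D

/-!
# The two definitions of this folder against the earlier ones
-/

set_option autoImplicit false

namespace Pool.Agent.H.MP_dd1c2e_lc.LX

open Finset Pool.Agent.H.MP_dd1c2e_lc

/-- A matrix obtained from an isometry by a relabelling of the outputs (an injective map). -/
theorem isIsometry_inj {I J A : Type} [Fintype I] [Fintype J] [DecidableEq J] [Fintype A] (V : I → A → ℂ)
    (hV : IsIsometry V) (f : I → J) (hf : Function.Injective f) :
    IsIsometry (fun (j : J) (a : A) => ∑ i, if f i = j then V i a else 0) := by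
  intro v
  rw [← hV v]
  have h1 : ∀ j : J, ∑ a, (∑ i, if f i = j then V i a else 0) * v a =
      ∑ i, if f i = j then ∑ a, V i a * v a else 0 := by
    intro j
    simp only [Finset.sum_mul]
    rw [Finset.sum_comm]
    refine Finset.sum_congr rfl fun i _ => ?_
    split_ifs with h
    · rfl
    · simp
  simp only [h1]
  have h2 : ∀ j : J, ‖∑ i, if f i = j then ∑ a, V i a * v a else 0‖ ^ 2 =
      ∑ i, if f i = j then ‖∑ a, V i a * v a‖ ^ 2 else 0 := by
    intro j
    by_cases hj : ∃ i, f i = j
    · obtain ⟨i0, rfl⟩ := hj
      rw [Finset.sum_eq_single i0, Finset.sum_eq_single i0]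
      · simp
      · intro i _ hi
        rw [if_neg (fun hh => hi (hf hh))]
      · intro hh; exact absurd (Finset.mem_univ _) hh
      · intro i _ hi
        rw [if_neg (fun hh => hi (hf hh))]
      · intro hh; exact absurd (Finset.mem_univ _) hh
    · have h3 : ∀ i, f i ≠ j := fun i hi => hj ⟨i, hi⟩
      simp [h3]
  simp only [h2]
  rw [Finset.sum_comm]
  simp

theorem isIsometry_id {A : Type} [Fintype A] [DecidableEq A] :
    IsIsometry (fun (i : A) (a : A) => if i = a then (1 : ℂ) else 0) := by
  intro v
  simp

theorem isIsometry_equiv {I A : Type} [Fintype I] [DecidableEq I] [Fintype A] (e : A ≃ I) :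
    IsIsometry (fun (i : I) (a : A) => if i = e a then (1 : ℂ) else 0) := by
  classical
  intro v
  have h : ∀ i, ∑ a, (if i = e a then (1 : ℂ) else 0) * v a = v (e.symm i) := by
    intro i
    rw [Finset.sum_eq_single (e.symm i)]
    · simp
    · intro b _ hb
      rw [if_neg, zero_mul]
      rintro rfl
      exact hb (by simp)
    · intro h; exact absurd (Finset.mem_univ _) h
  simp only [h]
  exact Equiv.sum_comp e.symm (fun a => ‖v a‖ ^ 2)

/-- If one party knows the answer, it sends a copy to the other one. -/
theorem qBoth_of_quantumComputes {X Y : Type} {F : X → Y → Bool} {q : ℕ} (h : QuantumComputes F q) :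
    QBoth F (q + 1) := by
  classical
  obtain ⟨A, hA, B, hB, ψ, hψ, h⟩ := h
  rcases h with ⟨A', hA', V, hV, h⟩ | ⟨B', hB', W, hW, h⟩
  · -- Alice outputs
    refine ⟨A' × Bool, inferInstance, Bool × B, inferInstance,
      aliceSend (fun (x : X) (j : (A' × Bool) × Bool) (a : A) => ∑ i : A' × Bool, if ((i, i.2) : (A' × Bool) × Bool) = j
        then V x i a else 0) ψ, Reach.alice (A' × Bool) _ (fun x => isIsometry_inj (V x) (hV x) (fun i => (i, i.2))
        (fun i j hij => (Prod.ext_iff.1 hij).1)) hψ, A', hA',
      fun _ i a => if i = a then 1 else 0, B, hB, fun _ i b => if i = (b.2, b.1) then 1 else 0,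
      fun _ => isIsometry_id, fun _ => isIsometry_equiv (Equiv.prodComm Bool B), ?_⟩
    intro x y
    refine (h x y).trans (le_of_eq ?_)
    refine Finset.sum_congr rfl fun a' _ => Finset.sum_congr rfl fun b _ => ?_
    congr 2
    beta_reduce
    rw [Finset.sum_eq_single (a', F x y)]
    · rw [Finset.sum_eq_single (F x y, b)]
      · simp only [if_true, one_mul, aliceSend]
        refine Finset.sum_congr rfl fun a _ => ?_
        congr 1
        rw [Finset.sum_eq_single (a', F x y)]
        · simp
        · intro i _ hi
          rw [if_neg]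
          intro hh
          exact hi (Prod.ext_iff.1 hh).1
        · intro hh; exact absurd (Finset.mem_univ _) hh
      · intro c _ hc
        rw [if_neg (show ¬ ((b, F x y) = (c.2, c.1)) from ?_)]
        · simp
        · intro hh
          apply hc
          have h1 := (Prod.ext_iff.1 hh).1
          have h2 := (Prod.ext_iff.1 hh).2
          simp only at h1 h2
          exact Prod.ext h2.symm h1.symm
      · intro hh; exact absurd (Finset.mem_univ _) hh
    · intro c _ hc
      refine Finset.sum_eq_zero fun d _ => ?_
      rw [if_neg (show ¬ ((a', F x y) = c) from fun hh => hc hh.symm)]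
      simp
    · intro hh; exact absurd (Finset.mem_univ _) hh
  · -- Bob outputs
    refine ⟨Bool × A, inferInstance, B' × Bool, inferInstance,
      bobSend (fun (y : Y) (j : (B' × Bool) × Bool) (b : B) => ∑ i : B' × Bool, if ((i, i.2) : (B' × Bool) × Bool) = j
        then W y i b else 0) ψ, Reach.bob (B' × Bool) _ (fun y => isIsometry_inj (W y) (hW y) (fun i => (i, i.2))
        (fun i j hij => (Prod.ext_iff.1 hij).1)) hψ, A, hA,
      fun _ i a => if i = (a.2, a.1) then 1 else 0, B', hB', fun _ i b => if i = b then 1 else 0,
      fun _ => isIsometry_equiv (Equiv.prodComm Bool A), fun _ => isIsometry_id, ?_⟩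
    intro x y
    refine (h x y).trans (le_of_eq ?_)
    rw [Finset.sum_comm]
    refine Finset.sum_congr rfl fun a _ => Finset.sum_congr rfl fun b' _ => ?_
    congr 2
    beta_reduce
    rw [Finset.sum_eq_single (F x y, a)]
    · rw [Finset.sum_eq_single (b', F x y)]
      · simp only [if_true, one_mul, bobSend]
        refine Finset.sum_congr rfl fun b _ => ?_
        congr 1
        rw [Finset.sum_eq_single (b', F x y)]
        · simp
        · intro i _ hi
          rw [if_neg]
          intro hh
          exact hi (Prod.ext_iff.1 hh).1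
        · intro hh; exact absurd (Finset.mem_univ _) hh
      · intro c _ hc
        rw [if_neg (show ¬ ((b', F x y) = c) from fun hh => hc hh.symm)]
        simp
      · intro hh; exact absurd (Finset.mem_univ _) hh
    · intro c _ hc
      refine Finset.sum_eq_zero fun d _ => ?_
      rw [if_neg (show ¬ ((a, F x y) = (c.2, c.1)) from ?_)]
      · simp
      · intro hh
        apply hc
        have h1 := (Prod.ext_iff.1 hh).1
        have h2 := (Prod.ext_iff.1 hh).2
        simp only at h1 h2
        exact Prod.ext h2.symm h1.symm
    · intro hh; exact absurd (Finset.mem_univ _) hh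

/-- A protocol with `r` fair public coins is a special case. -/
theorem rGen_of_randComputes {X Y : Type} {F : X → Y → Bool} {k : ℕ} (h : Alt.RandComputes F k) : RGen F k := by
  classical
  obtain ⟨r, P, hd, hP⟩ := h
  refine ⟨Fin r → Bool, inferInstance, fun _ => 1 / 2 ^ r, P, fun _ => by positivity, ?_, hd, fun x y => ?_⟩
  · rw [Finset.sum_const, Finset.card_univ, Fintype.card_fun, Fintype.card_bool, Fintype.card_fin, nsmul_eq_mul]
    push_cast
    field_simp
  · rw [← Finset.sum_filter, Finset.sum_const, nsmul_eq_mul]
    have h1 := hP x y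
    have h2 : (2 : ℝ) * 2 ^ r ≤ 3 * ((univ.filter fun ω => (P ω).run x y = F x y).card : ℝ) := by exact_mod_cast h1
    have h3 : (0 : ℝ) < 2 ^ r := by positivity
    rw [mul_one_div, le_div_iff₀ h3]
    linarith

end Pool.Agent.H.MP_dd1c2e_lc.LX
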