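import Mathlib
import Pool.Agent.H.MP_dd1c2e_lc.neg.Base
import Pool.Agent.H.MP_dd1c2e_lc.lx.Def

/-!
# Quantum protocols without prior entanglement, randomized protocols with private coins
-/

set_option autoImplicit false

namespace Pool.Agent.H.MP_dd1c2e_lc.LX

open Finset Pool.Agent.H.MP_dd1c2e_lc Pool.Agent.H.MP_dd1c2e_lc.Neg

/-- `F` is computed with error at most `1/3` on every input by a quantum protocol without prior entanglement in which `q`
qubits are exchanged, and both parties output `F x y`: `Q_{1/3}(F) ≤ q`. This is `QBoth` with `Reach0` (the parties start with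
trivial registers) in place of `Reach`. -/
def QBoth0 {X Y : Type} (F : X → Y → Bool) (q : ℕ) : Prop :=
  ∃ (A : Type) (_ : Fintype A) (B : Type) (_ : Fintype B) (ψ : X → Y → A → B → ℂ), Reach0 X Y q A B ψ ∧
    ∃ (A' : Type) (_ : Fintype A') (V : X → A' × Bool → A → ℂ) (B' : Type) (_ : Fintype B')
      (W : Y → B' × Bool → B → ℂ), (∀ x, IsIsometry (V x)) ∧ (∀ y, IsIsometry (W y)) ∧
      ∀ x y, 2 / 3 ≤ ∑ a', ∑ b', ‖∑ a, ∑ b, V x (a', F x y) a * W y (b', F x y) b * ψ x y a b‖ ^ 2

/-- `F` is computed with error at most `1/3` on every input by a randomized protocol with private coins that exchanges at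
most `k` bits: Alice and Bob draw independently `i` and `j` with the probabilities `w i` and `v j`; the bits sent by Alice
depend on `i` and `x`, the bits sent by Bob depend on `j` and `y`. -/
def RPriv {X Y : Type} (F : X → Y → Bool) (k : ℕ) : Prop :=
  ∃ (ι : Type) (_ : Fintype ι) (w : ι → ℝ) (κ : Type) (_ : Fintype κ) (v : κ → ℝ) (P : DProt (ι × X) (κ × Y)),
    (∀ i, 0 ≤ w i) ∧ ∑ i, w i = 1 ∧ (∀ j, 0 ≤ v j) ∧ ∑ j, v j = 1 ∧ P.depth ≤ k ∧
    ∀ x y, 2 / 3 ≤ ∑ i, ∑ j, if P.run (i, x) (j, y) = F x y then w i * v j else 0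

end Pool.Agent.H.MP_dd1c2e_lc.LX
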