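import Mathlib
import Pool.Agent.H.MP_dd1c2e_lc.lx.Def

/-!
# Relabelling of the inputs, encoding by bits, Yao's principle, the leaves of a protocol
-/

set_option autoImplicit false

namespace Pool.Agent.H.MP_dd1c2e_lc.LX

open Finset Pool.Agent.H.MP_dd1c2e_lc

/-- Relabelling the inputs of both parties. -/
theorem reach_comap {X X' Y Y' : Type} (α : X' → X) (β : Y' → Y) {q : ℕ} {A : Type} [Fintype A] {B : Type} [Fintype B]
    {ψ : X → Y → A → B → ℂ} (h : Reach X Y q A B ψ) : Reach X' Y' q A B (fun x y => ψ (α x) (β y)) := by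
  induction h with
  | start A B ψ h => exact Reach.start A B ψ h
  | alice A' V hV _ ih => exact Reach.alice A' (fun x => V (α x)) (fun x => hV (α x)) ih
  | bob B' W hW _ ih => exact Reach.bob B' (fun y => W (β y)) (fun y => hW (β y)) ih

theorem QBoth.comap {X X' Y Y' : Type} (α : X' → X) (β : Y' → Y) {F : X → Y → Bool} {q : ℕ} (h : QBoth F q) :
    QBoth (fun x y => F (α x) (β y)) q := by
  obtain ⟨A, hA, B, hB, ψ, hψ, A', hA', V, B', hB', W, hV, hW, h⟩ := h
  exact ⟨A, hA, B, hB, _, reach_comap α β hψ, A', hA', fun x => V (α x), B', hB', fun y => W (β y),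
    fun x => hV (α x), fun y => hW (β y), fun x y => h (α x) (β y)⟩

/-- Relabelling the inputs of a deterministic protocol. -/
def comapD {X X' Y Y' : Type} (α : X' → X) (β : Y' → Y) : DProt X Y → DProt X' Y'
  | .leaf b => .leaf b
  | .alice f P Q => .alice (fun x => f (α x)) (comapD α β P) (comapD α β Q)
  | .bob f P Q => .bob (fun y => f (β y)) (comapD α β P) (comapD α β Q)

theorem run_comapD {X X' Y Y' : Type} (α : X' → X) (β : Y' → Y) (P : DProt X Y) (x : X') (y : Y') :
    (comapD α β P).run x y = P.run (α x) (β y) := by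
  induction P with
  | leaf b => rfl
  | alice f P Q ihP ihQ => simp only [comapD, DProt.run, ihP, ihQ]
  | bob f P Q ihP ihQ => simp only [comapD, DProt.run, ihP, ihQ]

theorem depth_comapD {X X' Y Y' : Type} (α : X' → X) (β : Y' → Y) (P : DProt X Y) :
    (comapD α β P).depth = P.depth := by
  induction P with
  | leaf b => rfl
  | alice f P Q ihP ihQ => simp only [comapD, DProt.depth, ihP, ihQ]
  | bob f P Q ihP ihQ => simp only [comapD, DProt.depth, ihP, ihQ]

theorem RGen.comap {X X' Y Y' : Type} (α : X' → X) (β : Y' → Y) {F : X → Y → Bool} {k : ℕ} (h : RGen F k) :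
    RGen (fun x y => F (α x) (β y)) k := by
  obtain ⟨ι, hι, w, P, hw, hs, hd, h⟩ := h
  refine ⟨ι, hι, w, fun i => comapD α β (P i), hw, hs, fun i => ?_, fun x y => ?_⟩
  · rw [depth_comapD]; exact hd i
  · simp only [run_comapD]
    exact h (α x) (β y)

theorem RGen.mono {X Y : Type} {F : X → Y → Bool} {k l : ℕ} (h : RGen F k) (hkl : k ≤ l) : RGen F l := by
  obtain ⟨ι, hι, w, P, hw, hs, hd, h⟩ := h
  exact ⟨ι, hι, w, P, hw, hs, fun i => (hd i).trans hkl, h⟩

/-- A surjection of bit strings onto a small set. -/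
theorem exists_decode {X : Type} [Finite X] [Nonempty X] (n : ℕ) (hX : Nat.card X ≤ 2 ^ n) :
    ∃ (d : (Fin n → Bool) → X) (s : X → (Fin n → Bool)), ∀ x, d (s x) = x := by
  classical
  haveI := Fintype.ofFinite X
  have h1 : Fintype.card X ≤ Fintype.card (Fin n → Bool) := by
    rw [Fintype.card_fun, Fintype.card_bool, Fintype.card_fin, ← Nat.card_eq_fintype_card]
    exact hX
  obtain ⟨s⟩ := Function.Embedding.nonempty_of_card_le h1
  exact ⟨Function.invFun s, s, fun x => Function.leftInverse_invFun s.injective x⟩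

/-- Encoding the inputs by strings of `n` bits. -/
theorem encode {X Y : Type} [Finite X] [Finite Y] [Nonempty X] [Nonempty Y] (n : ℕ) (hX : Nat.card X ≤ 2 ^ n)
    (hY : Nat.card Y ≤ 2 ^ n) (F : X → Y → Bool) :
    ∃ F' : (Fin n → Bool) → (Fin n → Bool) → Bool, (∀ q, QBoth F q → QBoth F' q) ∧
      ∀ k, RGen F' k → RGen F k := by
  obtain ⟨dX, sX, hdX⟩ := exists_decode n hX
  obtain ⟨dY, sY, hdY⟩ := exists_decode n hY
  refine ⟨fun x y => F (dX x) (dY y), fun q h => h.comap dX dY, fun k h => ?_⟩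
  have h1 := h.comap sX sY
  simp only [hdX, hdY] at h1
  exact h1

/-- Yao's principle: for every distribution `μ` on a finite set `Ω` of pairs of inputs there is a deterministic protocol
with error at most `1/3` on average. -/
theorem yao {X Y Ω : Type} [Fintype Ω] {F : X → Y → Bool} {k : ℕ} (h : RGen F k) (μ : Ω → ℝ) (hμ : ∀ ω, 0 ≤ μ ω)
    (hs : ∑ ω, μ ω = 1) (a : Ω → X) (b : Ω → Y) :
    ∃ P : DProt X Y, P.depth ≤ k ∧ 2 / 3 ≤ ∑ ω, if P.run (a ω) (b ω) = F (a ω) (b ω) then μ ω else 0 := by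
  obtain ⟨ι, hι, w, P, hw, hw1, hd, h⟩ := h
  by_contra hcon
  push Not at hcon
  have h1 : ∀ i, ∑ ω, (if (P i).run (a ω) (b ω) = F (a ω) (b ω) then μ ω else 0) < 2 / 3 := fun i =>
    hcon (P i) (hd i)
  have h2 : ∑ i, w i * ∑ ω, (if (P i).run (a ω) (b ω) = F (a ω) (b ω) then μ ω else 0) < 2 / 3 := by
    have hex : ∃ i, 0 < w i := by
      by_contra hno
      push Not at hno
      have : ∑ i, w i ≤ 0 := Finset.sum_nonpos fun i _ => hno i
      rw [hw1] at this
      linarith
    obtain ⟨i0, hi0⟩ := hex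
    calc ∑ i, w i * ∑ ω, (if (P i).run (a ω) (b ω) = F (a ω) (b ω) then μ ω else 0)
        < ∑ i, w i * (2 / 3) :=
          Finset.sum_lt_sum (fun i _ => mul_le_mul_of_nonneg_left (h1 i).le (hw i))
            ⟨i0, Finset.mem_univ _, mul_lt_mul_of_pos_left (h1 i0) hi0⟩
      _ = 2 / 3 := by rw [← Finset.sum_mul, hw1, one_mul]
  have h3 : ∑ i, w i * ∑ ω, (if (P i).run (a ω) (b ω) = F (a ω) (b ω) then μ ω else 0) =
      ∑ ω, μ ω * ∑ i, (if (P i).run (a ω) (b ω) = F (a ω) (b ω) then w i else 0) := by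
    simp only [Finset.mul_sum]
    rw [Finset.sum_comm]
    refine Finset.sum_congr rfl fun ω _ => Finset.sum_congr rfl fun i _ => ?_
    split_ifs
    · ring
    · simp
  have h4 : 2 / 3 ≤ ∑ ω, μ ω * ∑ i, (if (P i).run (a ω) (b ω) = F (a ω) (b ω) then w i else 0) := by
    calc (2 : ℝ) / 3 = ∑ ω, μ ω * (2 / 3) := by rw [← Finset.sum_mul, hs, one_mul]
      _ ≤ _ := Finset.sum_le_sum fun ω _ => mul_le_mul_of_nonneg_left (h (a ω) (b ω)) (hμ ω)
  linarith

/-- The leaves of a deterministic protocol are at most `2 ^ depth` combinatorial rectangles which partition the set of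
inputs. -/
theorem leaves {X Y : Type} (P : DProt X Y) :
    ∃ (K : Type) (_ : Fintype K) (A : K → X → Bool) (B : K → Y → Bool) (out : K → Bool),
      Fintype.card K ≤ 2 ^ P.depth ∧ (∀ x y, ∃! t, A t x = true ∧ B t y = true) ∧
      ∀ x y t, A t x = true → B t y = true → P.run x y = out t := by
  induction P with
  | leaf b =>
    refine ⟨Unit, inferInstance, fun _ _ => true, fun _ _ => true, fun _ => b, by simp [DProt.depth], fun x y => ?_, ?_⟩
    · exact ⟨(), ⟨rfl, rfl⟩, fun _ _ => rfl⟩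
    · intro _ _ _ _ _; rfl
  | alice f P Q ihP ihQ =>
    obtain ⟨K, hK, A, B, out, hc, hu, ho⟩ := ihP
    obtain ⟨K', hK', A', B', out', hc', hu', ho'⟩ := ihQ
    refine ⟨K ⊕ K', inferInstance, Sum.elim (fun t x => f x && A t x) (fun t x => !f x && A' t x), Sum.elim B B',
      Sum.elim out out', ?_, fun x y => ?_, ?_⟩
    · rw [Fintype.card_sum]
      have h1 : 2 ^ P.depth ≤ 2 ^ max P.depth Q.depth := Nat.pow_le_pow_right (by norm_num) (le_max_left _ _)
      have h2 : 2 ^ Q.depth ≤ 2 ^ max P.depth Q.depth := Nat.pow_le_pow_right (by norm_num) (le_max_right _ _)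
      show _ ≤ 2 ^ (max P.depth Q.depth + 1)
      rw [pow_succ]
      omega
    · cases hf : f x
      · obtain ⟨t, ⟨h1, h2⟩, h3⟩ := hu' x y
        refine ⟨Sum.inr t, ⟨by simp [hf, h1], h2⟩, ?_⟩
        rintro (s | s) ⟨hs1, hs2⟩
        · simp [hf] at hs1
        · simp only [Sum.elim_inr, hf, Bool.not_false, Bool.true_and] at hs1 hs2
          rw [h3 s ⟨hs1, hs2⟩]
      · obtain ⟨t, ⟨h1, h2⟩, h3⟩ := hu x y
        refine ⟨Sum.inl t, ⟨by simp [hf, h1], h2⟩, ?_⟩
        rintro (s | s) ⟨hs1, hs2⟩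
        · simp only [Sum.elim_inl, hf, Bool.true_and] at hs1 hs2
          rw [h3 s ⟨hs1, hs2⟩]
        · simp [hf] at hs1
    · rintro x y (t | t) h1 h2
      · simp only [Sum.elim_inl, Bool.and_eq_true] at h1 h2 ⊢
        rw [DProt.run, if_pos h1.1]
        exact ho x y t h1.2 h2
      · simp only [Sum.elim_inr, Bool.and_eq_true, Bool.not_eq_true'] at h1 h2 ⊢
        rw [DProt.run, if_neg (by simp [h1.1])]
        exact ho' x y t h1.2 h2
  | bob f P Q ihP ihQ =>
    obtain ⟨K, hK, A, B, out, hc, hu, ho⟩ := ihP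
    obtain ⟨K', hK', A', B', out', hc', hu', ho'⟩ := ihQ
    refine ⟨K ⊕ K', inferInstance, Sum.elim A A', Sum.elim (fun t y => f y && B t y) (fun t y => !f y && B' t y),
      Sum.elim out out', ?_, fun x y => ?_, ?_⟩
    · rw [Fintype.card_sum]
      have h1 : 2 ^ P.depth ≤ 2 ^ max P.depth Q.depth := Nat.pow_le_pow_right (by norm_num) (le_max_left _ _)
      have h2 : 2 ^ Q.depth ≤ 2 ^ max P.depth Q.depth := Nat.pow_le_pow_right (by norm_num) (le_max_right _ _)
      show _ ≤ 2 ^ (max P.depth Q.depth + 1)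
      rw [pow_succ]
      omega
    · cases hf : f y
      · obtain ⟨t, ⟨h1, h2⟩, h3⟩ := hu' x y
        refine ⟨Sum.inr t, ⟨h1, by simp [hf, h2]⟩, ?_⟩
        rintro (s | s) ⟨hs1, hs2⟩
        · simp [hf] at hs2
        · simp only [Sum.elim_inr, hf, Bool.not_false, Bool.true_and] at hs1 hs2
          rw [h3 s ⟨hs1, hs2⟩]
      · obtain ⟨t, ⟨h1, h2⟩, h3⟩ := hu x y
        refine ⟨Sum.inl t, ⟨h1, by simp [hf, h2]⟩, ?_⟩
        rintro (s | s) ⟨hs1, hs2⟩
        · simp only [Sum.elim_inl, hf, Bool.true_and] at hs1 hs2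
          rw [h3 s ⟨hs1, hs2⟩]
        · simp [hf] at hs2
    · rintro x y (t | t) h1 h2
      · simp only [Sum.elim_inl, Bool.and_eq_true] at h1 h2 ⊢
        rw [DProt.run, if_pos h2.1]
        exact ho x y t h1 h2.2
      · simp only [Sum.elim_inr, Bool.and_eq_true, Bool.not_eq_true'] at h1 h2 ⊢
        rw [DProt.run, if_neg (by simp [h2.1])]
        exact ho' x y t h1 h2.2

/-- The same with real weights: `a t x, b t y ∈ {0, 1}`, `∑ t, a t x * b t y = 1`, and the leaves with the output `v` have the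
indicator function of `run = v` as their sum. -/
theorem leavesR {X Y : Type} (P : DProt X Y) {k : ℕ} (hk : P.depth ≤ k) :
    ∃ (K : Type) (_ : Fintype K) (a : K → X → ℝ) (b : K → Y → ℝ) (out : K → Bool),
      Fintype.card K ≤ 2 ^ k ∧ (∀ t x, a t x = 0 ∨ a t x = 1) ∧ (∀ t y, b t y = 0 ∨ b t y = 1) ∧
      (∀ x y, ∑ t, a t x * b t y = 1) ∧
      ∀ x y v, ∑ t, (if out t = v then a t x * b t y else 0) = if P.run x y = v then 1 else 0 := by
  classical
  obtain ⟨K, hK, A, B, out, hc, hu, ho⟩ := leaves P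
  refine ⟨K, hK, fun t x => if A t x then 1 else 0, fun t y => if B t y then 1 else 0, out,
    hc.trans (Nat.pow_le_pow_right (by norm_num) hk), fun t x => ?_, fun t y => ?_, fun x y => ?_, fun x y v => ?_⟩
  · by_cases h : A t x = true
    · exact Or.inr (if_pos h)
    · exact Or.inl (if_neg h)
  · by_cases h : B t y = true
    · exact Or.inr (if_pos h)
    · exact Or.inl (if_neg h)
  · obtain ⟨t, ⟨h1, h2⟩, h3⟩ := hu x y
    rw [Finset.sum_eq_single t]
    · simp [h1, h2]
    · intro s _ hs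
      by_cases h4 : A s x = true
      · by_cases h5 : B s y = true
        · exact absurd (h3 s ⟨h4, h5⟩) hs
        · simp [h5]
      · simp [h4]
    · intro h; exact absurd (Finset.mem_univ _) h
  · obtain ⟨t, ⟨h1, h2⟩, h3⟩ := hu x y
    rw [Finset.sum_eq_single t]
    · simp [h1, h2, ho x y t h1 h2]
    · intro s _ hs
      by_cases h4 : A s x = true
      · by_cases h5 : B s y = true
        · exact absurd (h3 s ⟨h4, h5⟩) hs
        · simp [h5]
      · simp [h4]
    · intro h; exact absurd (Finset.mem_univ _) h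

end Pool.Agent.H.MP_dd1c2e_lc.LX
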