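import Mathlib
import Pool.Agent.H.MP_dd1c2e_lc.lx.Def0
import Pool.Agent.H.MP_dd1c2e_lc.lx.Both
import Pool.Agent.H.MP_dd1c2e_lc.lx.Enc

/-!
# Protocols without entanglement, with private coins: comparison with the other models
-/

set_option autoImplicit false

namespace Pool.Agent.H.MP_dd1c2e_lc.LX

open Finset Pool.Agent.H.MP_dd1c2e_lc Pool.Agent.H.MP_dd1c2e_lc.Neg

theorem reach_of_reach0 {X Y : Type} {q : ℕ} {A : Type} [Fintype A] {B : Type} [Fintype B]
    {ψ : X → Y → A → B → ℂ} (h : Reach0 X Y q A B ψ) : Reach X Y q A B ψ := by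
  induction h with
  | start => exact Reach.start Unit Unit (fun _ _ => 1) (by simp)
  | alice A' V hV _ ih => exact Reach.alice A' V hV ih
  | bob B' W hW _ ih => exact Reach.bob B' W hW ih

theorem reach0_comap {X X' Y Y' : Type} (α : X' → X) (β : Y' → Y) {q : ℕ} {A : Type} [Fintype A] {B : Type} [Fintype B]
    {ψ : X → Y → A → B → ℂ} (h : Reach0 X Y q A B ψ) : Reach0 X' Y' q A B (fun x y => ψ (α x) (β y)) := by
  induction h with
  | start => exact Reach0.start
  | alice A' V hV _ ih => exact Reach0.alice A' (fun x => V (α x)) (fun x => hV (α x)) ih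
  | bob B' W hW _ ih => exact Reach0.bob B' (fun y => W (β y)) (fun y => hW (β y)) ih

/-- Entanglement can only help. -/
theorem QBoth0.qBoth {X Y : Type} {F : X → Y → Bool} {q : ℕ} (h : QBoth0 F q) : QBoth F q := by
  obtain ⟨A, hA, B, hB, ψ, hψ, h⟩ := h
  exact ⟨A, hA, B, hB, ψ, reach_of_reach0 hψ, h⟩

theorem quantumComputes_of_zero {X Y : Type} {F : X → Y → Bool} {q : ℕ} (h : QuantumComputes0 F q) :
    QuantumComputes F q := by
  obtain ⟨A, hA, B, hB, ψ, hψ, h⟩ := h
  exact ⟨A, hA, B, hB, ψ, reach_of_reach0 hψ, h⟩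

theorem QBoth0.comap {X X' Y Y' : Type} (α : X' → X) (β : Y' → Y) {F : X → Y → Bool} {q : ℕ} (h : QBoth0 F q) :
    QBoth0 (fun x y => F (α x) (β y)) q := by
  obtain ⟨A, hA, B, hB, ψ, hψ, A', hA', V, B', hB', W, hV, hW, h⟩ := h
  exact ⟨A, hA, B, hB, _, reach0_comap α β hψ, A', hA', fun x => V (α x), B', hB', fun y => W (β y),
    fun x => hV (α x), fun y => hW (β y), fun x y => h (α x) (β y)⟩

/-- If one party knows the answer, it sends a copy to the other one. -/
theorem qBoth0_of_quantumComputes0 {X Y : Type} {F : X → Y → Bool} {q : ℕ} (h : QuantumComputes0 F q) :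
    QBoth0 F (q + 1) := by
  classical
  obtain ⟨A, hA, B, hB, ψ, hψ, h⟩ := h
  rcases h with ⟨A', hA', V, hV, h⟩ | ⟨B', hB', W, hW, h⟩
  · -- Alice outputs
    refine ⟨A' × Bool, inferInstance, Bool × B, inferInstance,
      aliceSend (fun (x : X) (j : (A' × Bool) × Bool) (a : A) => ∑ i : A' × Bool, if ((i, i.2) : (A' × Bool) × Bool) = j
        then V x i a else 0) ψ, Reach0.alice (A' × Bool) _ (fun x => isIsometry_inj (V x) (hV x) (fun i => (i, i.2))
        (fun i j hij => (Prod.ext_iff.1 hij).1)) hψ, A', hA',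
      fun _ i a => if i = a then 1 else 0, B, hB, fun _ i b => if i = (b.2, b.1) then 1 else 0,
      fun _ => isIsometry_id, fun _ => isIsometry_equiv (Equiv.prodComm Bool B), ?_⟩
    intro x y
    refine (h x y).trans (le_of_eq ?_)
    refine Finset.sum_congr rfl fun a' _ => Finset.sum_congr rfl fun b _ => ?_
    congr 2
    beta_reduce
    rw [Finset.sum_eq_single (a', F x y)]
    · rw [Finset.sum_eq_single (F x y, b)]
      · simp only [if_true, one_mul, aliceSend]
        refine Finset.sum_congr rfl fun a _ => ?_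
        congr 1
        rw [Finset.sum_eq_single (a', F x y)]
        · simp
        · intro i _ hi
          rw [if_neg]
          intro hh
          exact hi (Prod.ext_iff.1 hh).1
        · intro hh; exact absurd (Finset.mem_univ _) hh
      · intro c _ hc
        rw [if_neg (show ¬ ((b, F x y) = (c.2, c.1)) from ?_)]
        · simp
        · intro hh
          apply hc
          have h1 := (Prod.ext_iff.1 hh).1
          have h2 := (Prod.ext_iff.1 hh).2
          simp only at h1 h2
          exact Prod.ext h2.symm h1.symm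
      · intro hh; exact absurd (Finset.mem_univ _) hh
    · intro c _ hc
      refine Finset.sum_eq_zero fun d _ => ?_
      rw [if_neg (show ¬ ((a', F x y) = c) from fun hh => hc hh.symm)]
      simp
    · intro hh; exact absurd (Finset.mem_univ _) hh
  · -- Bob outputs
    refine ⟨Bool × A, inferInstance, B' × Bool, inferInstance,
      bobSend (fun (y : Y) (j : (B' × Bool) × Bool) (b : B) => ∑ i : B' × Bool, if ((i, i.2) : (B' × Bool) × Bool) = j
        then W y i b else 0) ψ, Reach0.bob (B' × Bool) _ (fun y => isIsometry_inj (W y) (hW y) (fun i => (i, i.2))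
        (fun i j hij => (Prod.ext_iff.1 hij).1)) hψ, A, hA,
      fun _ i a => if i = (a.2, a.1) then 1 else 0, B', hB', fun _ i b => if i = b then 1 else 0,
      fun _ => isIsometry_equiv (Equiv.prodComm Bool A), fun _ => isIsometry_id, ?_⟩
    intro x y
    refine (h x y).trans (le_of_eq ?_)
    rw [Finset.sum_comm]
    refine Finset.sum_congr rfl fun a _ => Finset.sum_congr rfl fun b' _ => ?_
    congr 2
    beta_reduce
    rw [Finset.sum_eq_single (F x y, a)]
    · rw [Finset.sum_eq_single (b', F x y)]
      · simp only [if_true, one_mul, bobSend]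
        refine Finset.sum_congr rfl fun b _ => ?_
        congr 1
        rw [Finset.sum_eq_single (b', F x y)]
        · simp
        · intro i _ hi
          rw [if_neg]
          intro hh
          exact hi (Prod.ext_iff.1 hh).1
        · intro hh; exact absurd (Finset.mem_univ _) hh
      · intro c _ hc
        rw [if_neg (show ¬ ((b', F x y) = c) from fun hh => hc hh.symm)]
        simp
      · intro hh; exact absurd (Finset.mem_univ _) hh
    · intro c _ hc
      refine Finset.sum_eq_zero fun d _ => ?_
      rw [if_neg (show ¬ ((a, F x y) = (c.2, c.1)) from ?_)]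
      · simp
      · intro hh
        apply hc
        have h1 := (Prod.ext_iff.1 hh).1
        have h2 := (Prod.ext_iff.1 hh).2
        simp only at h1 h2
        exact Prod.ext h2.symm h1.symm
    · intro hh; exact absurd (Finset.mem_univ _) hh

/-- Private coins are a special case of public coins. -/
theorem RPriv.rGen {X Y : Type} {F : X → Y → Bool} {k : ℕ} (h : RPriv F k) : RGen F k := by
  obtain ⟨ι, hι, w, κ, hκ, v, P, hw, hw1, hv, hv1, hd, h⟩ := h
  refine ⟨ι × κ, inferInstance, fun p => w p.1 * v p.2, fun p => comapD (fun x => (p.1, x)) (fun y => (p.2, y)) P,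
    fun p => mul_nonneg (hw _) (hv _), ?_, fun p => ?_, fun x y => ?_⟩
  · rw [Fintype.sum_prod_type]
    simp only
    simp only [← Finset.mul_sum, hv1, mul_one, hw1]
  · rw [depth_comapD]; exact hd
  · rw [Fintype.sum_prod_type]
    simp only [run_comapD]
    exact h x y

/-- Encoding the inputs by strings of `n` bits. -/
theorem encode0 {X Y : Type} [Finite X] [Finite Y] [Nonempty X] [Nonempty Y] (n : ℕ) (hX : Nat.card X ≤ 2 ^ n)
    (hY : Nat.card Y ≤ 2 ^ n) (F : X → Y → Bool) :
    ∃ F' : (Fin n → Bool) → (Fin n → Bool) → Bool, (∀ q, QBoth0 F q → QBoth0 F' q) ∧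
      ∀ k, RGen F' k → RGen F k := by
  obtain ⟨dX, sX, hdX⟩ := exists_decode n hX
  obtain ⟨dY, sY, hdY⟩ := exists_decode n hY
  refine ⟨fun x y => F (dX x) (dY y), fun q h => h.comap dX dY, fun k h => ?_⟩
  have h1 := h.comap sX sY
  simp only [hdX, hdY] at h1
  exact h1

end Pool.Agent.H.MP_dd1c2e_lc.LX
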