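import Mathlib
import Pool.Agent.H.MP_dd1c2e_lc.lx.Both0

/-!
# From the family of functions to the final statements
-/

set_option autoImplicit false

namespace Pool.Agent.H.MP_dd1c2e_lc.LX

open Finset Pool.Agent.H.MP_dd1c2e_lc Pool.Agent.H.MP_dd1c2e_lc.Neg

/-- Powers of a polynomial grow more slowly than `2 ^ b`. -/
theorem poly_lt_two_pow (K : ℕ) (C c : ℝ) (hC : 0 < C) (hc : 0 < c) :
    ∃ b : ℕ, K ≤ b ∧ C * ((K * b ^ 3 + 1 : ℕ) : ℝ) ^ c + C ≤ 2 ^ b := by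
  obtain ⟨m, hm⟩ := exists_nat_ge c
  have h1 := tendsto_pow_const_div_const_pow_of_one_lt (3 * m) (r := (2 : ℝ)) (by norm_num)
  have hD : 0 < C * ((K : ℝ) + 1) ^ m + C := by positivity
  have h2 : ∀ᶠ b : ℕ in Filter.atTop, (b : ℝ) ^ (3 * m) / 2 ^ b < 1 / (C * ((K : ℝ) + 1) ^ m + C) :=
    h1.eventually (gt_mem_nhds (by positivity))
  obtain ⟨b, hb1, hb2⟩ := (h2.and (Filter.eventually_ge_atTop (K + 1))).exists
  refine ⟨b, by omega, ?_⟩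
  have hb : (1 : ℝ) ≤ b := by exact_mod_cast (by omega : 1 ≤ b)
  have hb3 : (1 : ℝ) ≤ (b : ℝ) ^ 3 := one_le_pow₀ hb
  have h3 : ((K * b ^ 3 + 1 : ℕ) : ℝ) ^ c ≤ ((K : ℝ) + 1) ^ m * (b : ℝ) ^ (3 * m) := by
    have h4 : (1 : ℝ) ≤ ((K * b ^ 3 + 1 : ℕ) : ℝ) := by
      push_cast
      have : (0 : ℝ) ≤ (K : ℝ) * (b : ℝ) ^ 3 := by positivity
      linarith
    calc ((K * b ^ 3 + 1 : ℕ) : ℝ) ^ c ≤ ((K * b ^ 3 + 1 : ℕ) : ℝ) ^ (m : ℝ) :=
          Real.rpow_le_rpow_of_exponent_le h4 hm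
      _ = ((K * b ^ 3 + 1 : ℕ) : ℝ) ^ m := Real.rpow_natCast _ _
      _ ≤ (((K : ℝ) + 1) * (b : ℝ) ^ 3) ^ m := by
          refine pow_le_pow_left₀ (by positivity) ?_ m
          push_cast
          linarith
      _ = ((K : ℝ) + 1) ^ m * (b : ℝ) ^ (3 * m) := by rw [mul_pow, ← pow_mul]
  have h5 : (b : ℝ) ^ (3 * m) * (C * ((K : ℝ) + 1) ^ m + C) ≤ 2 ^ b := by
    have h6 : (0 : ℝ) < 2 ^ b := by positivity
    rw [div_lt_div_iff₀ h6 hD] at hb1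
    linarith
  have h7 : (1 : ℝ) ≤ (b : ℝ) ^ (3 * m) := one_le_pow₀ hb
  calc C * ((K * b ^ 3 + 1 : ℕ) : ℝ) ^ c + C
      ≤ C * (((K : ℝ) + 1) ^ m * (b : ℝ) ^ (3 * m)) + C * (b : ℝ) ^ (3 * m) :=
        add_le_add (mul_le_mul_of_nonneg_left h3 hC.le) (le_mul_of_one_le_right hC.le h7)
    _ = (b : ℝ) ^ (3 * m) * (C * ((K : ℝ) + 1) ^ m + C) := by ring
    _ ≤ 2 ^ b := h5

/-- The negative answer to the question: `R` is not bounded by a power of `Q*`. -/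
theorem final_neg (h : ∃ K : ℕ, ∀ b : ℕ, K ≤ b → ∃ n : ℕ, n ≤ 2 ^ (K * b) ∧
      ∃ F : (Fin n → Bool) → (Fin n → Bool) → Bool, QuantumComputes0 F (K * b ^ 3) ∧ ¬ RGen F (2 ^ b)) :
    ∀ C c : ℝ, 0 < C → 0 < c → ∃ (n : ℕ) (F : (Fin n → Bool) → (Fin n → Bool) → Bool) (q : ℕ),
      QBoth0 F q ∧ ∀ k : ℕ, RGen F k → C * (q : ℝ) ^ c + C < k := by
  obtain ⟨K, h⟩ := h
  intro C c hC hc
  obtain ⟨b, hb, hb2⟩ := poly_lt_two_pow K C c hC hc
  obtain ⟨n, -, F, hF1, hF2⟩ := h b hb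
  refine ⟨n, F, K * b ^ 3 + 1, qBoth0_of_quantumComputes0 hF1, fun k hk => ?_⟩
  have h1 : 2 ^ b < k := by
    by_contra hcon
    exact hF2 (hk.mono (not_lt.1 hcon))
  calc C * ((K * b ^ 3 + 1 : ℕ) : ℝ) ^ c + C ≤ 2 ^ b := hb2
    _ < k := by exact_mod_cast h1

/-- The exponential gap for every large number `n` of input bits. -/
theorem final_exp (h : ∃ K : ℕ, ∀ b : ℕ, K ≤ b → ∃ n : ℕ, n ≤ 2 ^ (K * b) ∧
      ∃ F : (Fin n → Bool) → (Fin n → Bool) → Bool, QuantumComputes0 F (K * b ^ 3) ∧ ¬ RGen F (2 ^ b)) :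
    ∃ K n₀ : ℕ, ∀ n : ℕ, n₀ ≤ n → ∃ (F : (Fin n → Bool) → (Fin n → Bool) → Bool) (q : ℕ),
      q ≤ Nat.log 2 n ^ 3 ∧ QBoth0 F q ∧ ∀ k : ℕ, RGen F k → n ≤ k ^ K := by
  obtain ⟨K, h⟩ := h
  -- `M = K + 2`, `b = log n / M`
  refine ⟨2 * (K + 2), 2 ^ ((K + 2) * (K + 2)), fun n hn => ?_⟩
  set L := Nat.log 2 n with hL
  set b := L / (K + 2) with hb
  have hn0 : n ≠ 0 := by
    have := Nat.one_le_two_pow (n := (K + 2) * (K + 2))
    omega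
  have hL1 : (K + 2) * (K + 2) ≤ L := by
    have h1 := Nat.log_mono_right (b := 2) hn
    rwa [Nat.log_pow (by norm_num)] at h1
  have hbK : K + 2 ≤ b := by
    rw [hb, Nat.le_div_iff_mul_le (by omega)]
    exact hL1
  have hLn : 2 ^ L ≤ n := Nat.pow_log_le_self 2 hn0
  have hnL : n < 2 ^ (L + 1) := Nat.lt_pow_succ_log_self (by norm_num) n
  have hb1 : (K + 2) * b ≤ L := Nat.mul_div_le L (K + 2)
  have hb2 : L + 1 ≤ (K + 2) * (b + 1) := by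
    have h1 := Nat.lt_mul_div_succ L (show 0 < K + 2 by omega)
    rw [← hb] at h1
    omega
  obtain ⟨n', hn', F, hF1, hF2⟩ := h b (by omega)
  have hn'n : n' ≤ n := hn'.trans ((Nat.pow_le_pow_right (by norm_num)
    ((Nat.mul_le_mul_right b (by omega : K ≤ K + 2)).trans hb1)).trans hLn)
  have hcard : Nat.card (Fin n' → Bool) ≤ 2 ^ n := by
    rw [Nat.card_eq_fintype_card, Fintype.card_fun, Fintype.card_bool, Fintype.card_fin]
    exact Nat.pow_le_pow_right (by norm_num) hn'n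
  obtain ⟨F', hF'1, hF'2⟩ := encode0 n hcard hcard F
  refine ⟨F', K * b ^ 3 + 1, ?_, hF'1 _ (qBoth0_of_quantumComputes0 hF1), fun k hk => ?_⟩
  · -- `K b³ + 1 ≤ L³`
    have h1 : (K + 2) * b ^ 3 ≤ ((K + 2) * b) ^ 3 := by
      rw [mul_pow]
      exact Nat.mul_le_mul_right _ (Nat.le_self_pow (by norm_num) _)
    have h2 : ((K + 2) * b) ^ 3 ≤ L ^ 3 := Nat.pow_le_pow_left hb1 3
    have h3 : 1 ≤ b ^ 3 := Nat.one_le_pow _ _ (by omega)
    have h4 : (K + 2) * b ^ 3 = K * b ^ 3 + 2 * b ^ 3 := by ring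
    omega
  · have h1 : 2 ^ b < k := by
      by_contra hcon
      exact hF2 ((hF'2 k hk).mono (not_lt.1 hcon))
    have h2 : L + 1 ≤ b * (2 * (K + 2)) := by
      have h3 : (K + 2) * (b + 1) ≤ (K + 2) * (2 * b) := Nat.mul_le_mul_left _ (by omega)
      calc L + 1 ≤ (K + 2) * (b + 1) := hb2
        _ ≤ (K + 2) * (2 * b) := h3
        _ = b * (2 * (K + 2)) := by ring
    calc n ≤ 2 ^ (L + 1) := hnL.le
      _ ≤ 2 ^ (b * (2 * (K + 2))) := Nat.pow_le_pow_right (by norm_num) h2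
      _ = (2 ^ b) ^ (2 * (K + 2)) := by rw [pow_mul]
      _ ≤ k ^ (2 * (K + 2)) := Nat.pow_le_pow_left h1.le _

/-- The same with private coins, for polynomials in `Q` without entanglement. -/
theorem final_priv (h : ∃ K : ℕ, ∀ b : ℕ, K ≤ b → ∃ n : ℕ, n ≤ 2 ^ (K * b) ∧
      ∃ F : (Fin n → Bool) → (Fin n → Bool) → Bool, QuantumComputes0 F (K * b ^ 3) ∧ ¬ RGen F (2 ^ b)) :
    ∀ p : Polynomial ℝ, ∃ (n : ℕ) (F : (Fin n → Bool) → (Fin n → Bool) → Bool) (q : ℕ),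
      QBoth0 F q ∧ ∀ q' ≤ q, ∀ k : ℕ, RPriv F k → p.eval (q' : ℝ) < k := by
  intro p
  -- `|p(q')| ≤ C q^c + C` for `q' ≤ q`
  obtain ⟨n, F, q, h1, h2⟩ := final_neg h (∑ i ∈ Finset.range (p.natDegree + 1), |p.coeff i| + 1)
    (p.natDegree + 1) (by positivity) (by positivity)
  refine ⟨n, F, q, h1, fun q' hq' k hk => lt_of_le_of_lt ?_ (h2 k hk.rGen)⟩
  set S := ∑ i ∈ Finset.range (p.natDegree + 1), |p.coeff i| with hS
  have hS0 : 0 ≤ S := Finset.sum_nonneg fun i _ => abs_nonneg _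
  have hc1 : ((q : ℝ) ^ ((p.natDegree : ℝ) + 1)) = (q : ℝ) ^ (p.natDegree + 1) := by
    rw [← Real.rpow_natCast]; push_cast; rfl
  rw [hc1, Polynomial.eval_eq_sum_range]
  have hterm : ∀ i ∈ Finset.range (p.natDegree + 1), p.coeff i * (q' : ℝ) ^ i ≤
      |p.coeff i| * ((q : ℝ) ^ (p.natDegree + 1) + 1) := by
    intro i hi
    have hi' : i ≤ p.natDegree + 1 := (Finset.mem_range.1 hi).le
    have h3 : (q' : ℝ) ^ i ≤ (q : ℝ) ^ (p.natDegree + 1) + 1 := by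
      have h4 : (q' : ℝ) ^ i ≤ (q : ℝ) ^ i := pow_le_pow_left₀ (by positivity) (by exact_mod_cast hq') i
      rcases Nat.eq_zero_or_pos q with h0 | h0
      · subst h0
        have h5 : ((0 : ℕ) : ℝ) ^ i ≤ 1 := pow_le_one₀ (by simp) (by simp)
        have h6 : (0 : ℝ) ≤ ((0 : ℕ) : ℝ) ^ (p.natDegree + 1) := by positivity
        linarith
      · have h5 : (q : ℝ) ^ i ≤ (q : ℝ) ^ (p.natDegree + 1) :=
          pow_le_pow_right₀ (by exact_mod_cast h0) hi'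
        linarith
    calc p.coeff i * (q' : ℝ) ^ i ≤ |p.coeff i| * (q' : ℝ) ^ i :=
          mul_le_mul_of_nonneg_right (le_abs_self _) (by positivity)
      _ ≤ _ := mul_le_mul_of_nonneg_left h3 (abs_nonneg _)
  calc ∑ i ∈ Finset.range (p.natDegree + 1), p.coeff i * (q' : ℝ) ^ i
      ≤ ∑ i ∈ Finset.range (p.natDegree + 1), |p.coeff i| * ((q : ℝ) ^ (p.natDegree + 1) + 1) :=
        Finset.sum_le_sum hterm
    _ = S * ((q : ℝ) ^ (p.natDegree + 1) + 1) := by rw [← Finset.sum_mul]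
    _ ≤ (S + 1) * (q : ℝ) ^ (p.natDegree + 1) + (S + 1) := by
        have : (0 : ℝ) ≤ (q : ℝ) ^ (p.natDegree + 1) := by positivity
        nlinarith

end Pool.Agent.H.MP_dd1c2e_lc.LX
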