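import Pool.Agent.H.MP_dd1c2e_lc.neg.MainOf
import Pool.Agent.H.MP_dd1c2e_lc.neg.Up
import Pool.Agent.H.MP_dd1c2e_lc.neg.Low

/-!
# The family of total functions with an exponential gap
-/

set_option autoImplicit false

namespace Pool.Agent.H.MP_dd1c2e_lc.LX

open Finset Pool.Agent.H.MP_dd1c2e_lc.Neg

/-- Total functions `F` on `n + n` bits, `n ≤ 2 ^ (K b)`, with `Q(F) ≤ K b³` (no prior entanglement) and `R(F) > 2 ^ b`. -/
theorem family : ∃ K : ℕ, ∀ b : ℕ, K ≤ b → ∃ n : ℕ, n ≤ 2 ^ (K * b) ∧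
    ∃ F : (Fin n → Bool) → (Fin n → Bool) → Bool, QuantumComputes0 F (K * b ^ 3) ∧ ¬ RGen F (2 ^ b) :=
  main_of (fun a c k P L _ hc hk hP hP2 hL => q_upper a c k P L hc hk hP hP2 hL)
    (fun a c k P T _ hc hk hJ hN hP => c_lower a c k P T hc hk hJ hN hP)

end Pool.Agent.H.MP_dd1c2e_lc.LX
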