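import Mathlib

/-!
# Randomized and quantum communication complexity: the definitions of the final statement

`Prot`: deterministic protocols; `Rand F k`: `R_{1/3}(F) ≤ k` with public coins; `QEnt F q`: `Q*_{1/3}(F) ≤ q` (quantum
protocols with prior entanglement); `QNoEnt F q`: `Q_{1/3}(F) ≤ q` (without prior entanglement).
-/

set_option autoImplicit false

namespace Pool.Agent.H.MP_dd1c2e_lc.Model

open Finset

/-- A deterministic two-party protocol: a binary tree in which every inner vertex is owned by Alice, who sends one bit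
depending on her input, or by Bob, and every leaf carries the common output. -/
inductive Prot (X Y : Type) : Type
  | out (b : Bool) : Prot X Y
  | alice (f : X → Bool) (P Q : Prot X Y) : Prot X Y
  | bob (f : Y → Bool) (P Q : Prot X Y) : Prot X Y

/-- The output of the protocol on the input `(x, y)`. -/
def Prot.run {X Y : Type} : Prot X Y → X → Y → Bool
  | .out b, _, _ => b
  | .alice f P Q, x, y => if f x then P.run x y else Q.run x y
  | .bob f P Q, x, y => if f y then P.run x y else Q.run x y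

/-- The number of bits exchanged in the worst case. -/
def Prot.depth {X Y : Type} : Prot X Y → ℕ
  | .out _ => 0
  | .alice _ P Q => max P.depth Q.depth + 1
  | .bob _ P Q => max P.depth Q.depth + 1

/-- `R_{1/3}(F) ≤ k`: `F` is computed with error at most `1/3` on every input by a randomized protocol with a public random
source that exchanges at most `k` bits. The protocol is a finite probability distribution `w` (with arbitrary real
probabilities; in particular, any number of public unbiased coins) on deterministic protocols `P i` of depth at most `k`. -/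
def Rand {X Y : Type} (F : X → Y → Bool) (k : ℕ) : Prop :=
  ∃ (ι : Type) (_ : Fintype ι) (w : ι → ℝ) (P : ι → Prot X Y), (∀ i, 0 ≤ w i) ∧ ∑ i, w i = 1 ∧
    (∀ i, (P i).depth ≤ k) ∧ ∀ x y, 2 / 3 ≤ ∑ i, if (P i).run x y = F x y then w i else 0

/-- The matrix `V` is an isometry `ℂ^A → ℂ^I`. -/
def Isometric {I A : Type} [Fintype I] [Fintype A] (V : I → A → ℂ) : Prop :=
  ∀ v : A → ℂ, ∑ i, ‖∑ a, V i a * v a‖ ^ 2 = ∑ a, ‖v a‖ ^ 2

/-- `Reach ψ₀ q A B ψ`: from the initial joint state `ψ₀ ∈ ℂ^A₀ ⊗ ℂ^B₀` Alice and Bob can prepare the joint states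
`ψ x y ∈ ℂ^A ⊗ ℂ^B` (for the inputs `x`, `y`) by exchanging `q` qubits. In each step one party applies an isometry that
depends on its own input to its own register: `V x : ℂ^A → ℂ^A' ⊗ ℂ^2` or `W y : ℂ^B → ℂ^B' ⊗ ℂ^2`, and sends the qubit
to the other party. The order of the senders does not depend on the inputs. -/
inductive Reach (X Y : Type) {A₀ : Type} [Fintype A₀] {B₀ : Type} [Fintype B₀] (ψ₀ : A₀ → B₀ → ℂ) :
    ℕ → (A : Type) → [Fintype A] → (B : Type) → [Fintype B] → (X → Y → A → B → ℂ) → Prop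
  | start : Reach X Y ψ₀ 0 A₀ B₀ (fun _ _ => ψ₀)
  | alice {q : ℕ} {A : Type} [Fintype A] {B : Type} [Fintype B] {ψ : X → Y → A → B → ℂ} (A' : Type) [Fintype A']
      (V : X → A' × Bool → A → ℂ) (hV : ∀ x, Isometric (V x)) (h : Reach X Y ψ₀ q A B ψ) :
      Reach X Y ψ₀ (q + 1) A' (Bool × B) (fun x y a' m => ∑ a, V x (a', m.1) a * ψ x y a m.2)
  | bob {q : ℕ} {A : Type} [Fintype A] {B : Type} [Fintype B] {ψ : X → Y → A → B → ℂ} (B' : Type) [Fintype B']
      (W : Y → B' × Bool → B → ℂ) (hW : ∀ y, Isometric (W y)) (h : Reach X Y ψ₀ q A B ψ) :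
      Reach X Y ψ₀ (q + 1) (Bool × A) B' (fun x y m b' => ∑ b, W y (b', m.1) b * ψ x y m.2 b)

/-- From the initial state `ψ₀` the parties compute `F` by exchanging `q` qubits: after the exchange Alice applies an isometry
`V x : ℂ^A → ℂ^A' ⊗ ℂ^2` to her register and measures the qubit, Bob applies an isometry `W y : ℂ^B → ℂ^B' ⊗ ℂ^2` to his
register and measures the qubit, and for every input both outcomes are `F x y` with probability at least `2/3`. -/
def Computes {X Y : Type} (F : X → Y → Bool) {A₀ : Type} [Fintype A₀] {B₀ : Type} [Fintype B₀] (ψ₀ : A₀ → B₀ → ℂ)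
    (q : ℕ) : Prop :=
  ∃ (A : Type) (_ : Fintype A) (B : Type) (_ : Fintype B) (ψ : X → Y → A → B → ℂ), Reach X Y ψ₀ q A B ψ ∧
    ∃ (A' : Type) (_ : Fintype A') (V : X → A' × Bool → A → ℂ) (B' : Type) (_ : Fintype B')
      (W : Y → B' × Bool → B → ℂ), (∀ x, Isometric (V x)) ∧ (∀ y, Isometric (W y)) ∧
      ∀ x y, 2 / 3 ≤ ∑ a', ∑ b', ‖∑ a, ∑ b, V x (a', F x y) a * W y (b', F x y) b * ψ x y a b‖ ^ 2

/-- `Q*_{1/3}(F) ≤ q`: the parties may share any entangled state (a unit vector `ψ₀ ∈ ℂ^A₀ ⊗ ℂ^B₀`) before the protocol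
starts. -/
def QEnt {X Y : Type} (F : X → Y → Bool) (q : ℕ) : Prop :=
  ∃ (A₀ : Type) (_ : Fintype A₀) (B₀ : Type) (_ : Fintype B₀) (ψ₀ : A₀ → B₀ → ℂ), ∑ a, ∑ b, ‖ψ₀ a b‖ ^ 2 = 1 ∧
    Computes F ψ₀ q

/-- `Q_{1/3}(F) ≤ q`: no prior entanglement (the initial registers are one-dimensional). -/
def QNoEnt {X Y : Type} (F : X → Y → Bool) (q : ℕ) : Prop :=
  Computes F (fun _ _ : Unit => (1 : ℂ)) q

end Pool.Agent.H.MP_dd1c2e_lc.Model
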