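import Mathlib
import Pool.Agent.H.MP_dd1c2e_lc.lx.Model
import Pool.Agent.H.MP_dd1c2e_lc.lx.Final
import Pool.Agent.H.MP_dd1c2e_lc.lx.Main

/-!
# The final statements in the terms of `Model`
-/

set_option autoImplicit false

namespace Pool.Agent.H.MP_dd1c2e_lc.LX

open Finset Pool.Agent.H.MP_dd1c2e_lc Pool.Agent.H.MP_dd1c2e_lc.Neg

/-- The protocol trees are the same. -/
def ofProt {X Y : Type} : Model.Prot X Y → DProt X Y
  | .out b => .leaf b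
  | .alice f P Q => .alice f (ofProt P) (ofProt Q)
  | .bob f P Q => .bob f (ofProt P) (ofProt Q)

theorem run_ofProt {X Y : Type} (P : Model.Prot X Y) (x : X) (y : Y) : (ofProt P).run x y = P.run x y := by
  induction P with
  | out b => rfl
  | alice f P Q ihP ihQ => simp only [ofProt, DProt.run, Model.Prot.run, ihP, ihQ]
  | bob f P Q ihP ihQ => simp only [ofProt, DProt.run, Model.Prot.run, ihP, ihQ]

theorem depth_ofProt {X Y : Type} (P : Model.Prot X Y) : (ofProt P).depth = P.depth := by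
  induction P with
  | out b => rfl
  | alice f P Q ihP ihQ => simp only [ofProt, DProt.depth, Model.Prot.depth, ihP, ihQ]
  | bob f P Q ihP ihQ => simp only [ofProt, DProt.depth, Model.Prot.depth, ihP, ihQ]

theorem rGen_of_rand {X Y : Type} {F : X → Y → Bool} {k : ℕ} (h : Model.Rand F k) : RGen F k := by
  obtain ⟨ι, hι, w, P, hw, hs, hd, h⟩ := h
  refine ⟨ι, hι, w, fun i => ofProt (P i), hw, hs, fun i => ?_, fun x y => ?_⟩
  · rw [depth_ofProt]; exact hd i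
  · simp only [run_ofProt]
    exact h x y

theorem reach_model {X Y : Type} {q : ℕ} {A : Type} [Fintype A] {B : Type} [Fintype B]
    {ψ : X → Y → A → B → ℂ} (h : Reach0 X Y q A B ψ) : Model.Reach X Y (fun _ _ : Unit => (1 : ℂ)) q A B ψ := by
  induction h with
  | start => exact Model.Reach.start
  | alice A' V hV _ ih => exact Model.Reach.alice A' V hV ih
  | bob B' W hW _ ih => exact Model.Reach.bob B' W hW ih

theorem qNoEnt_of_qBoth0 {X Y : Type} {F : X → Y → Bool} {q : ℕ} (h : QBoth0 F q) : Model.QNoEnt F q := by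
  obtain ⟨A, hA, B, hB, ψ, hψ, A', hA', V, B', hB', W, hV, hW, h⟩ := h
  exact ⟨A, hA, B, hB, ψ, reach_model hψ, A', hA', V, B', hB', W, hV, hW, h⟩

theorem qEnt_of_qNoEnt {X Y : Type} {F : X → Y → Bool} {q : ℕ} (h : Model.QNoEnt F q) : Model.QEnt F q :=
  ⟨Unit, inferInstance, Unit, inferInstance, fun _ _ => 1, by simp, h⟩

/-- The exponential gap. -/
theorem answer_exp : ∃ K n₀ : ℕ, ∀ n : ℕ, n₀ ≤ n → ∃ (F : (Fin n → Bool) → (Fin n → Bool) → Bool) (q : ℕ),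
    q ≤ Nat.log 2 n ^ 3 ∧ Model.QNoEnt F q ∧ ∀ k : ℕ, Model.Rand F k → n ≤ k ^ K := by
  obtain ⟨K, n₀, h⟩ := final_exp family
  refine ⟨K, n₀, fun n hn => ?_⟩
  obtain ⟨F, q, hq, h1, h2⟩ := h n hn
  exact ⟨F, q, hq, qNoEnt_of_qBoth0 h1, fun k hk => h2 k (rGen_of_rand hk)⟩

/-- Powers of polynomials grow more slowly than `2 ^ L`. -/
theorem poly_pow_lt (K : ℕ) (C c : ℝ) (hC : 0 < C) :
    ∃ L₀ : ℕ, ∀ L : ℕ, L₀ ≤ L → (C * ((L : ℝ) ^ 3) ^ c + C) ^ K < 2 ^ L := by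
  obtain ⟨m, hm⟩ := exists_nat_ge c
  have h1 := tendsto_pow_const_div_const_pow_of_one_lt (3 * m * K) (r := (2 : ℝ)) (by norm_num)
  have hD : 0 < (2 * C) ^ K := by positivity
  have h2 : ∀ᶠ L : ℕ in Filter.atTop, (L : ℝ) ^ (3 * m * K) / 2 ^ L < 1 / (2 * C) ^ K :=
    h1.eventually (gt_mem_nhds (by positivity))
  obtain ⟨L₀, hL₀⟩ := Filter.eventually_atTop.1 h2
  refine ⟨L₀ + 1, fun L hL => ?_⟩
  have hb1 := hL₀ L (by omega)
  have hL1 : (1 : ℝ) ≤ L := by exact_mod_cast (by omega : 1 ≤ L)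
  have h3 : ((L : ℝ) ^ 3) ^ c ≤ (L : ℝ) ^ (3 * m) := by
    calc ((L : ℝ) ^ 3) ^ c ≤ ((L : ℝ) ^ 3) ^ (m : ℝ) := Real.rpow_le_rpow_of_exponent_le (one_le_pow₀ hL1) hm
      _ = (L : ℝ) ^ (3 * m) := by rw [Real.rpow_natCast, ← pow_mul]
  have h7 : (1 : ℝ) ≤ (L : ℝ) ^ (3 * m) := one_le_pow₀ hL1
  have h4 : C * ((L : ℝ) ^ 3) ^ c + C ≤ 2 * C * (L : ℝ) ^ (3 * m) := by
    have h5 := mul_le_mul_of_nonneg_left h3 hC.le
    have h6 := mul_le_mul_of_nonneg_left h7 hC.le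
    linarith
  have h8 : 0 ≤ C * ((L : ℝ) ^ 3) ^ c + C := by positivity
  calc (C * ((L : ℝ) ^ 3) ^ c + C) ^ K ≤ (2 * C * (L : ℝ) ^ (3 * m)) ^ K := pow_le_pow_left₀ h8 h4 K
    _ = (L : ℝ) ^ (3 * m * K) * (2 * C) ^ K := by rw [mul_pow, ← pow_mul]; ring
    _ < 2 ^ L := by
        have h6 : (0 : ℝ) < 2 ^ L := by positivity
        rw [div_lt_div_iff₀ h6 hD] at hb1
        linarith

/-- The negative answer, in one formula. -/
theorem answer : ∃ K : ℕ, ∀ C c : ℝ, 0 < C → 0 < c → ∃ n₀ : ℕ, ∀ n : ℕ, n₀ ≤ n →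
    ∃ (F : (Fin n → Bool) → (Fin n → Bool) → Bool) (q : ℕ), q ≤ Nat.log 2 n ^ 3 ∧ Model.QNoEnt F q ∧ Model.QEnt F q ∧
      ∀ k : ℕ, Model.Rand F k → C * (q : ℝ) ^ c + C < k ∧ n ≤ k ^ K := by
  obtain ⟨K, n₀, h⟩ := answer_exp
  refine ⟨K, fun C c hC hc => ?_⟩
  obtain ⟨L₀, hL₀⟩ := poly_pow_lt K C c hC
  refine ⟨max n₀ (2 ^ L₀), fun n hn => ?_⟩
  obtain ⟨F, q, hq, h1, h2⟩ := h n (le_trans (le_max_left _ _) hn)
  have hn2 : 2 ^ L₀ ≤ n := le_trans (le_max_right _ _) hn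
  have hn0 : n ≠ 0 := by
    have := Nat.one_le_two_pow (n := L₀)
    omega
  have hL : L₀ ≤ Nat.log 2 n := by
    have h3 := Nat.log_mono_right (b := 2) hn2
    rwa [Nat.log_pow (by norm_num)] at h3
  refine ⟨F, q, hq, h1, qEnt_of_qNoEnt h1, fun k hk => ⟨?_, h2 k hk⟩⟩
  have h4 := hL₀ _ hL
  have h5 : (2 : ℝ) ^ Nat.log 2 n ≤ n := by exact_mod_cast Nat.pow_log_le_self 2 hn0
  have h6 : (n : ℝ) ≤ (k : ℝ) ^ K := by exact_mod_cast h2 k hk
  have h7 : C * (q : ℝ) ^ c + C ≤ C * (((Nat.log 2 n : ℕ) : ℝ) ^ 3) ^ c + C := by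
    have h8 : (q : ℝ) ≤ ((Nat.log 2 n : ℕ) : ℝ) ^ 3 := by exact_mod_cast hq
    have h9 := Real.rpow_le_rpow (by positivity) h8 hc.le
    have h10 := mul_le_mul_of_nonneg_left h9 hC.le
    linarith
  exact lt_of_le_of_lt h7 (lt_of_pow_lt_pow_left₀ K (by positivity) (h4.trans_le (h5.trans h6)))

end Pool.Agent.H.MP_dd1c2e_lc.LX
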